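import Pool.Agent.Y122.TQ.Defs3

set_option autoImplicit false

/-! Job TQ-MOM (helper339 for helper122): order of magnitude of finitely many truncated moments. -/

namespace Pool.Agent.Y339.TQ

open Finset Filter Topology MeasureTheory
open Pool.Agent.Y746.OA (tr clip rho)
open Pool.Agent.Y122.TQ

noncomputable section

/-- size of the main term for one exponent -/
lemma one {e a : ℝ} (ha : 0 < a) {M : ℝ → ℝ}
    (h : Tendsto (fun δ : ℝ => (2 * δ) ^ e * M δ) (𝓝[>] 0) (𝓝 a)) :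
    ∃ δ0 : ℝ, 0 < δ0 ∧ ∃ c1 c2 : ℝ, 0 < c1 ∧ 0 < c2 ∧ ∀ δ : ℝ, 0 < δ → δ ≤ δ0 →
      c1 * δ ^ (-e) ≤ M δ ∧ M δ ≤ c2 * δ ^ (-e) := by
  have h1 : ∀ᶠ δ : ℝ in 𝓝[>] 0, (2 * δ) ^ e * M δ ∈ Set.Icc (a / 2) (2 * a) :=
    h (Icc_mem_nhds (by linarith) (by linarith))
  obtain ⟨u, hu, hsub⟩ := mem_nhdsGT_iff_exists_Ioc_subset.1 h1
  refine ⟨u, hu, a / 2 * 2 ^ (-e), 2 * a * 2 ^ (-e), by positivity, by positivity, ?_⟩
  intro δ hδ0 hδ
  obtain ⟨h2, h3⟩ := hsub ⟨hδ0, hδ⟩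
  have h4 : (0 : ℝ) < (2 * δ) ^ (-e) := Real.rpow_pos_of_pos (by linarith) _
  have h5 : (2 * δ) ^ (-e) * ((2 * δ) ^ e * M δ) = M δ := by
    rw [← mul_assoc, ← Real.rpow_add (by linarith), neg_add_cancel, Real.rpow_zero, one_mul]
  have h6 : (2 * δ) ^ (-e) = 2 ^ (-e) * δ ^ (-e) := Real.mul_rpow (by norm_num) hδ0.le
  constructor
  · rw [← h5, mul_assoc, ← h6, mul_comm]
    exact mul_le_mul_of_nonneg_left h2 h4.le
  · rw [← h5, mul_assoc, ← h6, mul_comm (2 * a)]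
    exact mul_le_mul_of_nonneg_left h3 h4.le

/-- the error term against the main term -/
lemma err {e c : ℝ} {B : ℕ} (hB : 1 + |e| ≤ B) {δ L : ℝ} (hδ0 : 0 < δ) (hδ1 : δ ≤ 1)
    (hδc : δ ≤ c) (hL : 1 / L ≤ δ) (hL0 : 0 < L) : 1 / L ^ B ≤ c * δ ^ (-e) := by
  have h1 : 1 / L ^ B ≤ δ ^ B := by
    rw [← one_div_pow]
    exact pow_le_pow_left₀ (by positivity) hL B
  have h2 : δ ^ B ≤ δ ^ (1 + -e) := by
    rw [← Real.rpow_natCast]
    apply Real.rpow_le_rpow_of_exponent_ge hδ0 hδ1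
    have := neg_abs_le e
    linarith
  have h3 : δ ^ (1 + -e) = δ * δ ^ (-e) := by
    rw [Real.rpow_add hδ0, Real.rpow_one]
  have h4 : δ * δ ^ (-e) ≤ c * δ ^ (-e) := by
    have := Real.rpow_pos_of_pos hδ0 (-e)
    gcongr
  linarith

/-- the truncation at a power of `log X` -/
lemma trunc (c : ℝ) (hc : 0 < c) (A0 K : ℕ) (C0 : ℝ) : ∃ (A : ℕ) (C X1 : ℝ), 0 < C ∧ C0 ≤ C ∧
    ∀ X : ℝ, X1 ≤ X → 1 < X ∧ 1 ≤ Real.log X ∧ ∀ δ : ℝ, C * Real.log (Real.log X) / Real.log X ≤ δ →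
      1 / Real.log X ≤ δ ∧ 1 ≤ Real.log X ^ A ∧ Real.log X ^ A0 ≤ Real.log X ^ A ∧
      Real.log X ^ A ≤ X ^ (c * δ) ∧ δ ^ (-(K : ℝ)) ≤ Real.log X ^ A ∧
      C0 * Real.log (Real.log X) / Real.log X ≤ δ := by
  set A : ℕ := max A0 (max K 1) with hA
  set C : ℝ := max C0 (max (A / c) 1) with hC
  have hC1 : 1 ≤ C := (le_max_right _ _).trans (le_max_right _ _)
  refine ⟨A, C, Real.exp (Real.exp 1), by linarith, le_max_left _ _, ?_⟩
  intro X hX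
  have he : (1 : ℝ) ≤ Real.exp 1 := Real.one_le_exp (by norm_num)
  have hX0 : 0 < X := (Real.exp_pos _).trans_le hX
  have hlX : Real.exp 1 ≤ Real.log X := by
    rw [Real.le_log_iff_exp_le hX0]; exact hX
  have hl1 : 1 ≤ Real.log X := he.trans hlX
  have hl0 : 0 < Real.log X := by linarith
  have hll : 1 ≤ Real.log (Real.log X) := by
    rw [Real.le_log_iff_exp_le hl0]; exact hlX
  refine ⟨?_, hl1, ?_⟩
  · refine lt_of_lt_of_le ?_ hX
    exact Real.one_lt_exp_iff.2 (Real.exp_pos 1)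
  · intro δ hδ
    have h1 : 1 / Real.log X ≤ δ := by
      refine le_trans ?_ hδ
      rw [div_le_div_iff_of_pos_right hl0]
      nlinarith
    have hδ0 : 0 < δ := lt_of_lt_of_le (by positivity) h1
    refine ⟨h1, one_le_pow₀ hl1, pow_le_pow_right₀ hl1 (le_max_left _ _), ?_, ?_, ?_⟩
    · rw [div_le_iff₀ hl0] at hδ
      have h2 : (A : ℝ) / c ≤ C := (le_max_left _ _).trans (le_max_right _ _)
      rw [div_le_iff₀ hc] at h2
      have h3 : (A : ℝ) * Real.log (Real.log X) ≤ c * δ * Real.log X := by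
        calc (A : ℝ) * Real.log (Real.log X) ≤ (C * c) * Real.log (Real.log X) := by gcongr
          _ = c * (C * Real.log (Real.log X)) := by ring
          _ ≤ c * (δ * Real.log X) := by gcongr
          _ = c * δ * Real.log X := by ring
      rw [Real.rpow_def_of_pos hX0, ← Real.rpow_natCast, Real.rpow_def_of_pos hl0]
      apply Real.exp_le_exp.2
      nlinarith
    · have h4 : δ ^ (-(K : ℝ)) ≤ (1 / Real.log X) ^ (-(K : ℝ)) :=
        Real.rpow_le_rpow_of_nonpos (by positivity) h1 (by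
          have : (0 : ℝ) ≤ K := Nat.cast_nonneg K
          linarith)
      refine h4.trans ?_
      rw [one_div, Real.inv_rpow hl0.le, Real.rpow_neg hl0.le, inv_inv, Real.rpow_natCast]
      exact pow_le_pow_right₀ hl1 ((le_max_left _ _).trans (le_max_right _ _))
    · refine le_trans ?_ hδ
      rw [div_le_div_iff_of_pos_right hl0]
      have : C0 ≤ C := le_max_left _ _
      nlinarith

theorem MOM (h1 : S_FIN) (h2 : S_LC) : S_MOM := by
  intro Γ K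
  classical
  -- uniform constants over the finite set
  have hone : ∀ γ : ℝ, ∃ δ0 c1 c2 : ℝ, 0 < δ0 ∧ 0 < c1 ∧ 0 < c2 ∧ (γ ∈ Γ → ∀ δ : ℝ, 0 < δ →
      δ ≤ δ0 → c1 * δ ^ (-(γ * (γ + 1) / 2)) ≤ lfac γ δ 2 * MT γ δ ∧
        lfac γ δ 2 * MT γ δ ≤ c2 * δ ^ (-(γ * (γ + 1) / 2))) := by
    intro γ
    by_cases hγ : γ ∈ Γ
    · obtain ⟨-, ha, ht⟩ := h2 γ
      obtain ⟨δ0, h0, c1, c2, hc1, hc2, h⟩ := one ha ht
      exact ⟨δ0, c1, c2, h0, hc1, hc2, fun _ => h⟩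
    · exact ⟨1, 1, 1, one_pos, one_pos, one_pos, fun h => absurd h hγ⟩
  choose dl k1 k2 hdl hk1 hk2 hmain using hone
  -- bounds over the finite set
  have hmin : ∀ f : ℝ → ℝ, (∀ γ, 0 < f γ) → ∃ m : ℝ, 0 < m ∧ ∀ γ ∈ Γ, m ≤ f γ := by
    intro f hf
    rcases Γ.eq_empty_or_nonempty with hΓ | hΓ
    · exact ⟨1, one_pos, fun γ hγ => by simp [hΓ] at hγ⟩
    · obtain ⟨γ0, hγ0, h⟩ := Γ.exists_min_image f hΓ
      exact ⟨f γ0, hf γ0, h⟩
  have hmax : ∀ f : ℝ → ℝ, ∃ m : ℝ, 0 < m ∧ ∀ γ ∈ Γ, f γ ≤ m := by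
    intro f
    refine ⟨∑ γ ∈ Γ, |f γ| + 1, by positivity, fun γ hγ => ?_⟩
    have h1 := Finset.single_le_sum (f := fun γ => |f γ|) (fun γ _ => abs_nonneg (f γ)) hγ
    have h2 := le_abs_self (f γ)
    linarith
  obtain ⟨d0, hd0, hd⟩ := hmin dl hdl
  obtain ⟨c1, hc1, hkc1⟩ := hmin k1 hk1
  obtain ⟨c2, hc2, hkc2⟩ := hmax k2
  obtain ⟨mr, hmr0, hmr⟩ := hmax fun γ => |γ|
  obtain ⟨Br, hBr0, hBr⟩ := hmax fun γ => 1 + |γ * (γ + 1) / 2|
  obtain ⟨m, hm⟩ := exists_nat_ge mr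
  obtain ⟨B, hB⟩ := exists_nat_ge Br
  obtain ⟨c, hc, hfin⟩ := h1 m
  obtain ⟨A0, C0, X0, hC0, hfin⟩ := hfin B
  obtain ⟨A, C, X1, hC, hCC, htr⟩ := trunc c hc A0 K C0
  set q : ℝ := 3 / Real.pi ^ 2 with hq
  have hq0 : 0 < q := by positivity
  refine ⟨A, C, max X0 X1, min (min d0 (1 / 16)) (q * c1 / 2), q * c1 / 2, q * c2 + q * c1 / 2,
    hC, by positivity, (min_le_left _ _).trans (min_le_right _ _), by positivity, by positivity, ?_⟩
  intro X hX ε hε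
  obtain ⟨hfinite, hfin⟩ := hfin X ((le_max_left _ _).trans hX) ε hε
  intro δ hδ hδ0
  obtain ⟨hX1, hlX, htr⟩ := htr X ((le_max_right _ _).trans hX)
  obtain ⟨t1, t2, t3, t4, t5, t6⟩ := htr δ hδ
  have hlX0 : 0 < Real.log X := by linarith
  have hδpos : 0 < δ := lt_of_lt_of_le (by positivity) t1
  have hδd : δ ≤ d0 := hδ0.trans ((min_le_left _ _).trans (min_le_left _ _))
  have hδ16 : δ ≤ 1 / 16 := hδ0.trans ((min_le_left _ _).trans (min_le_right _ _))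
  have hδq : δ ≤ q * c1 / 2 := hδ0.trans (min_le_right _ _)
  refine ⟨hfinite, by linarith, hδpos, t2, t5, ?_⟩
  intro γ hγ
  have hf := hfin δ t6 hδ16 (Real.log X ^ A) t3 t4 γ ((hmr γ hγ).trans hm)
  obtain ⟨m1, m2⟩ := hmain γ hγ δ hδpos (hδd.trans (hd γ hγ))
  set w : ℝ := δ ^ (-(γ * (γ + 1) / 2)) with hw
  have hw0 : 0 < w := Real.rpow_pos_of_pos hδpos _
  have herr : 1 / Real.log X ^ B ≤ q * c1 / 2 * w :=
    err ((hBr γ hγ).trans hB) hδpos (by linarith) hδq t1 hlX0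
  have hX0 : 0 < X := by linarith
  have herr2 : X / Real.log X ^ B ≤ q * c1 / 2 * w * X := by
    rw [div_eq_mul_one_div, mul_comm]
    gcongr
  have m3 : c1 * w ≤ lfac γ δ 2 * MT γ δ := le_trans (by
    have := hkc1 γ hγ
    gcongr) m1
  have m4 : lfac γ δ 2 * MT γ δ ≤ c2 * w := le_trans m2 (by
    have := hkc2 γ hγ
    gcongr)
  rw [abs_le] at hf
  have m5 : q * X * (c1 * w) ≤ q * X * (lfac γ δ 2 * MT γ δ) := by gcongr
  have m6 : q * X * (lfac γ δ 2 * MT γ δ) ≤ q * X * (c2 * w) := by gcongr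
  constructor
  · nlinarith [hf.1]
  · nlinarith [hf.2]

end

end Pool.Agent.Y339.TQ
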